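import Mathlib

/-!
The censored walk on a monotone subset `A` of the hypercube.

For disjoint coordinate sets `I`, `J` of size `m` let `A` be the set of points that are all ones on
`I` or all ones on `J`.  The walk started on the part `B` of `A` where `J` is not all ones leaves
`B` at rate at most `m / (2 n (2^m - 1))`, so the mixing time is at least of order `n 2^m / m`,
while the density of `A` is about `2^(1-m)`.
-/

set_option autoImplicit false

open Finset
open scoped ENNReal

namespace Pool.Agent.Results.MP_52661b_pr.LowDensityCounterexample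

variable {n : ℕ}

/-- The point obtained by flipping coordinate `i`. -/
def flip (i : Fin n) (x : Fin n → Bool) : Fin n → Bool := Function.update x i (!x i)

/-- The censored move: flip coordinate `i` if the result is in `A`, otherwise stay. -/
def move (A : Finset (Fin n → Bool)) (x : A) (i : Fin n) : A :=
  if h : flip i x.1 ∈ A then ⟨flip i x.1, h⟩ else x

/-- Transition matrix of the lazy censored walk on `A`: with probability `1/2` stay, otherwise pick
a uniformly random coordinate and make the censored move. -/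
noncomputable def P (A : Finset (Fin n → Bool)) : Matrix A A ℝ :=
  Matrix.of fun x y => (1/2 : ℝ) * (if y = x then 1 else 0) +
    (1/2 : ℝ) * ((1 / (n : ℝ)) * ∑ i : Fin n, if y = move A x i then 1 else 0)

/-- Total variation distance to the uniform distribution on `A` at time `t`, started from `x`. -/
noncomputable def tv (A : Finset (Fin n → Bool)) (t : ℕ) (x : A) : ℝ :=
  (1/2 : ℝ) * ∑ y : A, |((P A) ^ t) x y - 1 / (A.card : ℝ)|

/-- The mixing time: least `t` such that from every starting state the total variation distance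
at time `t` is at most `1/4` (`∞` if there is no such `t`). -/
noncomputable def tmix (A : Finset (Fin n → Bool)) : ℝ≥0∞ :=
  ⨅ (t : ℕ) (_ : ∀ x : A, tv A t x ≤ 1/4), (t : ℝ≥0∞)

lemma flip_flip (i : Fin n) (x : Fin n → Bool) : flip i (flip i x) = x := by
  ext j
  unfold flip
  by_cases h : j = i
  · subst h; simp
  · simp [h]

lemma flip_ne (i : Fin n) (x : Fin n → Bool) : flip i x ≠ x := by
  intro h
  have := congrFun h i
  simp [flip] at this

section Chain

variable (A : Finset (Fin n → Bool))

lemma move_eq_iff (x y : A) (hxy : y ≠ x) (i : Fin n) : y = move A x i ↔ y.1 = flip i x.1 := by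
  unfold move
  split_ifs with h
  · exact Subtype.ext_iff
  · constructor
    · intro h'; exact absurd h' hxy
    · intro h'; exact absurd (h' ▸ y.2) h

lemma P_symm (x y : A) : P A x y = P A y x := by
  by_cases hxy : y = x
  · subst hxy; rfl
  · have hyx : x ≠ y := fun h => hxy h.symm
    simp only [P, Matrix.of_apply, hxy, hyx, if_false, move_eq_iff A x y hxy, move_eq_iff A y x hyx]
    congr 3
    refine Finset.sum_congr rfl fun i _ => ?_
    have : (y.1 = flip i x.1) ↔ (x.1 = flip i y.1) := by
      constructor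
      · intro h; rw [h, flip_flip]
      · intro h; rw [h, flip_flip]
    simp only [this]

lemma P_nonneg (x y : A) : 0 ≤ P A x y := by
  simp only [P, Matrix.of_apply]
  have : (0 : ℝ) ≤ ∑ i : Fin n, if y = move A x i then 1 else 0 :=
    Finset.sum_nonneg fun i _ => by split_ifs <;> norm_num
  split_ifs <;> positivity

lemma P_row (hn : 0 < n) (x : A) : ∑ y, P A x y = 1 := by
  have hn' : (n : ℝ) ≠ 0 := by exact_mod_cast hn.ne'
  simp only [P, Matrix.of_apply]
  rw [Finset.sum_add_distrib, ← Finset.mul_sum, ← Finset.mul_sum, ← Finset.mul_sum, Finset.sum_comm]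
  simp
  field_simp
  norm_num

lemma P_col (hn : 0 < n) (y : A) : ∑ x, P A x y = 1 := by
  rw [← P_row A hn y]
  exact Finset.sum_congr rfl fun x _ => P_symm A x y

lemma Ppow_row (hn : 0 < n) (t : ℕ) (x : A) : ∑ y, (P A ^ t) x y = 1 := by
  induction t generalizing x with
  | zero => simp [Matrix.one_apply]
  | succ t ih =>
    simp only [pow_succ, Matrix.mul_apply]
    rw [Finset.sum_comm]
    simp_rw [← Finset.mul_sum, P_row A hn, mul_one]
    exact ih x

/-- Bottleneck bound: if the edge flow out of `B` is small, the chain is not mixed. -/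
lemma bottleneck (hn : 0 < n) (B : Finset A) (hB : B.Nonempty) (hhalf : (2 * B.card : ℝ) ≤ A.card)
    (t : ℕ) (flow : ℝ) (hflow : ∑ x ∈ B, ∑ y ∈ Bᶜ, P A x y ≤ flow)
    (ht : t * flow < B.card / 4) : ∃ x : A, 1/4 < tv A t x := by
  classical
  by_contra hcon
  push Not at hcon
  have hBpos : (0 : ℝ) < B.card := by exact_mod_cast hB.card_pos
  have hApos : (0 : ℝ) < A.card := by linarith
  -- the (unnormalised) law at time s started from the uniform measure on B
  let ν : ℕ → A → ℝ := fun s y => ∑ x ∈ B, (P A ^ s) x y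
  have hν0 : ∀ y, ν 0 y = if y ∈ B then 1 else 0 := by
    intro y
    simp only [ν, pow_zero, Matrix.one_apply]
    rw [Finset.sum_ite_eq']
  have hνs : ∀ s y, ν (s + 1) y = ∑ x, ν s x * P A x y := by
    intro s y
    simp only [ν, pow_succ, Matrix.mul_apply, Finset.sum_mul]
    rw [Finset.sum_comm]
  have hν1 : ∀ s y, ν s y ≤ 1 := by
    intro s
    induction s with
    | zero => intro y; rw [hν0]; split_ifs <;> norm_num
    | succ s ih =>
      intro y
      rw [hνs]
      calc ∑ x, ν s x * P A x y ≤ ∑ x, 1 * P A x y :=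
            Finset.sum_le_sum fun x _ => mul_le_mul_of_nonneg_right (ih x) (P_nonneg A x y)
        _ = 1 := by simp only [one_mul]; exact P_col A hn y
  have hνn : ∀ s y, 0 ≤ ν s y := by
    intro s
    induction s with
    | zero => intro y; rw [hν0]; split_ifs <;> norm_num
    | succ s ih =>
      intro y
      rw [hνs]
      exact Finset.sum_nonneg fun x _ => mul_nonneg (ih x) (P_nonneg A x y)
  have hout : ∀ s : ℕ, ∑ y ∈ Bᶜ, ν s y ≤ s * flow := by
    intro s
    induction s with
    | zero =>
      rw [Finset.sum_eq_zero]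
      · simp
      · intro y hy; rw [hν0, if_neg (Finset.mem_compl.1 hy)]
    | succ s ih =>
      calc ∑ y ∈ Bᶜ, ν (s + 1) y = ∑ x, ν s x * ∑ y ∈ Bᶜ, P A x y := by
            simp_rw [hνs, Finset.mul_sum]
            rw [Finset.sum_comm]
        _ = ∑ x ∈ B, ν s x * ∑ y ∈ Bᶜ, P A x y + ∑ x ∈ Bᶜ, ν s x * ∑ y ∈ Bᶜ, P A x y := by
            rw [Finset.sum_add_sum_compl]
        _ ≤ ∑ x ∈ B, 1 * ∑ y ∈ Bᶜ, P A x y + ∑ x ∈ Bᶜ, ν s x * 1 := by
            gcongr with x _ x _
            · exact Finset.sum_nonneg fun y _ => P_nonneg A x y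
            · exact hν1 s x
            · exact hνn s x
            · rw [← P_row A hn x]
              exact Finset.sum_le_sum_of_subset_of_nonneg (Finset.subset_univ _)
                (fun y _ _ => P_nonneg A x y)
        _ ≤ flow + s * flow := by
            simp only [one_mul, mul_one]
            exact add_le_add hflow ih
        _ = (s + 1 : ℕ) * flow := by push_cast; ring
  have htot : ∑ y, ν t y = B.card := by
    simp only [ν]
    rw [Finset.sum_comm]
    simp_rw [Ppow_row A hn]
    simp
  have hin : (3/4 : ℝ) * B.card < ∑ y ∈ B, ν t y := by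
    have h1 := Finset.sum_add_sum_compl B (ν t)
    rw [htot] at h1
    have h2 := hout t
    linarith
  -- upper bound from mixing
  have hmix : ∀ x : A, ∑ y ∈ B, (P A ^ t) x y ≤ B.card / A.card + 1/4 := by
    intro x
    have h1 := hcon x
    unfold tv at h1
    have h2 : ∑ y ∈ B, ((P A ^ t) x y - 1 / (A.card : ℝ)) ≤ ∑ y ∈ B, |(P A ^ t) x y - 1 / (A.card : ℝ)| :=
      Finset.sum_le_sum fun y _ => le_abs_self _
    have h3 : -∑ y ∈ Bᶜ, ((P A ^ t) x y - 1 / (A.card : ℝ)) ≤ ∑ y ∈ Bᶜ, |(P A ^ t) x y - 1 / (A.card : ℝ)| := by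
      rw [← Finset.sum_neg_distrib]
      exact Finset.sum_le_sum fun y _ => neg_le_abs _
    have h4 := Finset.sum_add_sum_compl B (fun y => |(P A ^ t) x y - 1 / (A.card : ℝ)|)
    have h5 := Finset.sum_add_sum_compl B (fun y => ((P A ^ t) x y - 1 / (A.card : ℝ)))
    have h6 : ∑ y : A, ((P A ^ t) x y - 1 / (A.card : ℝ)) = 0 := by
      rw [Finset.sum_sub_distrib, Ppow_row A hn]
      simp
      field_simp
      norm_num
    have h7 : ∑ y ∈ B, ((P A ^ t) x y - 1 / (A.card : ℝ)) = ∑ y ∈ B, (P A ^ t) x y - B.card / A.card := by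
      rw [Finset.sum_sub_distrib]
      simp
      ring
    linarith
  have hsum : ∑ y ∈ B, ν t y ≤ (3/4 : ℝ) * B.card := by
    simp only [ν]
    rw [Finset.sum_comm]
    calc ∑ x ∈ B, ∑ y ∈ B, (P A ^ t) x y ≤ ∑ x ∈ B, ((B.card : ℝ) / A.card + 1/4) :=
          Finset.sum_le_sum fun x _ => hmix x
      _ = B.card * ((B.card : ℝ) / A.card + 1/4) := by rw [Finset.sum_const, nsmul_eq_mul]
      _ ≤ (3/4 : ℝ) * B.card := by
          have : (B.card : ℝ) / A.card ≤ 1/2 := by
            rw [div_le_iff₀ hApos]; linarith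
          nlinarith
  linarith

end Chain

section Example

/-- points agreeing with `v` on `K` -/
def cyl (K : Finset (Fin n)) (v : Fin n → Bool) : Finset (Fin n → Bool) :=
  univ.filter (fun x => ∀ i ∈ K, x i = v i)

lemma card_cyl (K : Finset (Fin n)) (v : Fin n → Bool) : (cyl K v).card = 2 ^ (n - K.card) := by
  classical
  have h : cyl K v = Fintype.piFinset (fun i => if i ∈ K then {v i} else univ) := by
    ext x
    simp only [cyl, Finset.mem_filter, Finset.mem_univ, true_and, Fintype.mem_piFinset]
    constructor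
    · intro h i
      by_cases hi : i ∈ K
      · simp [hi, h i hi]
      · simp [hi]
    · intro h i hi
      have := h i
      simpa [hi] using this
  rw [h, Fintype.card_piFinset]
  have h2 : ∀ i : Fin n, (if i ∈ K then ({v i} : Finset Bool) else univ).card = if i ∈ K then 1 else 2 := by
    intro i; split_ifs <;> simp
  simp_rw [h2]
  rw [Finset.prod_ite]
  simp only [Finset.prod_const_one, one_mul, Finset.prod_const]
  congr 1
  have h3 : (univ.filter (fun i => i ∉ K)) = Kᶜ := by ext i; simp
  rw [h3, Finset.card_compl, Fintype.card_fin]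

/-- all ones on `I` or all ones on `J` -/
def AA (I J : Finset (Fin n)) : Finset (Fin n → Bool) :=
  univ.filter (fun x => (∀ i ∈ I, x i = true) ∨ (∀ i ∈ J, x i = true))

lemma AA_upper (I J : Finset (Fin n)) : IsUpperSet (AA I J : Set (Fin n → Bool)) := by
  intro x y hxy hx
  simp only [AA, Finset.coe_filter, Finset.mem_univ, true_and, Set.mem_ofPred_eq] at hx ⊢
  have key : ∀ i, x i = true → y i = true := by
    intro i hi
    have := hxy i
    rw [hi] at this
    exact top_le_iff.1 this
  rcases hx with h | h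
  · exact Or.inl fun i hi => key i (h i hi)
  · exact Or.inr fun i hi => key i (h i hi)

variable (I J : Finset (Fin n))

/-- the part of `AA I J` where `J` is not all ones -/
def BB : Finset (AA I J) := univ.filter (fun x => ¬ ∀ i ∈ J, x.1 i = true)

lemma card_compl_BB : (BB I J)ᶜ.card = 2 ^ (n - J.card) := by
  rw [← card_cyl J (fun _ => true)]
  refine Finset.card_bij (fun x _ => x.1) ?_ ?_ ?_
  · intro x hx
    simp only [BB, Finset.mem_compl, Finset.mem_filter, Finset.mem_univ, true_and, not_not] at hx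
    simp only [cyl, Finset.mem_filter, Finset.mem_univ, true_and]
    exact hx
  · intro x _ y _ h; exact Subtype.ext h
  · intro y hy
    simp only [cyl, Finset.mem_filter, Finset.mem_univ, true_and] at hy
    refine ⟨⟨y, ?_⟩, ?_, rfl⟩
    · simp only [AA, Finset.mem_filter, Finset.mem_univ, true_and]
      exact Or.inr hy
    · simp only [BB, Finset.mem_compl, Finset.mem_filter, Finset.mem_univ, true_and, not_not]
      exact hy

lemma card_BB : (BB I J).card + 2 ^ (n - (I ∪ J).card) = 2 ^ (n - I.card) := by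
  rw [← card_cyl I (fun _ => true), ← card_cyl (I ∪ J) (fun _ => true)]
  have h1 : (BB I J).card = ((cyl I (fun _ => true)) \ (cyl (I ∪ J) (fun _ => true))).card := by
    refine Finset.card_bij (fun x _ => x.1) ?_ ?_ ?_
    · intro x hx
      simp only [BB, Finset.mem_filter, Finset.mem_univ, true_and] at hx
      have hx2 := x.2
      simp only [AA, Finset.mem_filter, Finset.mem_univ, true_and] at hx2
      simp only [cyl, Finset.mem_sdiff, Finset.mem_filter, Finset.mem_univ, true_and, Finset.mem_union]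
      refine ⟨hx2.resolve_right hx, ?_⟩
      intro h
      exact hx fun i hi => h i (Or.inr hi)
    · intro x _ y _ h; exact Subtype.ext h
    · intro y hy
      simp only [cyl, Finset.mem_sdiff, Finset.mem_filter, Finset.mem_univ, true_and, Finset.mem_union] at hy
      refine ⟨⟨y, ?_⟩, ?_, rfl⟩
      · simp only [AA, Finset.mem_filter, Finset.mem_univ, true_and]
        exact Or.inl hy.1
      · simp only [BB, Finset.mem_filter, Finset.mem_univ, true_and]
        intro h
        apply hy.2
        intro i hi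
        rcases hi with hi | hi
        · exact hy.1 i hi
        · exact h i hi
  rw [h1, Finset.card_sdiff_add_card_eq_card]
  intro x hx
  simp only [cyl, Finset.mem_filter, Finset.mem_univ, true_and, Finset.mem_union] at hx ⊢
  exact fun i hi => hx i (Or.inl hi)

lemma flow_bound (hn : 0 < n) : ∑ x ∈ BB I J, ∑ y ∈ (BB I J)ᶜ, P (AA I J) x y ≤
    (J.card : ℝ) * 2 ^ (n - (I ∪ J).card) / (2 * n) := by
  classical
  have hn' : (0 : ℝ) < n := by exact_mod_cast hn
  -- transitions out of `B`
  have h1 : ∀ x ∈ BB I J, ∑ y ∈ (BB I J)ᶜ, P (AA I J) x y =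
      (1 / (2 * n) : ℝ) * ∑ i : Fin n, if move (AA I J) x i ∈ (BB I J)ᶜ then (1 : ℝ) else 0 := by
    intro x hx
    simp only [P, Matrix.of_apply]
    rw [Finset.sum_add_distrib, ← Finset.mul_sum, ← Finset.mul_sum, ← Finset.mul_sum, Finset.sum_comm]
    have h2 : ∑ y ∈ (BB I J)ᶜ, (if y = x then (1 : ℝ) else 0) = 0 := by
      refine Finset.sum_eq_zero fun y hy => ?_
      rw [if_neg]
      intro h
      rw [h] at hy
      exact (Finset.mem_compl.1 hy) hx
    rw [h2, mul_zero, zero_add]
    have h3 : ∀ i : Fin n, ∑ y ∈ (BB I J)ᶜ, (if y = move (AA I J) x i then (1 : ℝ) else 0) =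
        if move (AA I J) x i ∈ (BB I J)ᶜ then (1 : ℝ) else 0 := by
      intro i
      rw [Finset.sum_ite_eq']
    simp_rw [h3]
    field_simp
  rw [Finset.sum_congr rfl h1, ← Finset.mul_sum, Finset.sum_comm]
  have h4 : ∀ i : Fin n, ∑ x ∈ BB I J, (if move (AA I J) x i ∈ (BB I J)ᶜ then (1 : ℝ) else 0) ≤
      if i ∈ J then (2 : ℝ) ^ (n - (I ∪ J).card) else 0 := by
    intro i
    rw [← Finset.sum_filter, Finset.sum_const, nsmul_eq_mul, mul_one]
    by_cases hi : i ∈ J
    · rw [if_pos hi]
      have hcard : ((BB I J).filter (fun x => move (AA I J) x i ∈ (BB I J)ᶜ)).card ≤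
          (cyl (I ∪ J) (fun j => if j = i then false else true)).card := by
        refine Finset.card_le_card_of_injOn (fun x => x.1) ?_ ?_
        · intro x hx
          simp only [Finset.coe_filter, Set.mem_ofPred_eq, BB, Finset.mem_filter, Finset.mem_univ, true_and,
            Finset.mem_compl, not_not] at hx
          obtain ⟨hxJ, hmove⟩ := hx
          have hx2 := x.2
          simp only [AA, Finset.mem_filter, Finset.mem_univ, true_and] at hx2
          have hxI := hx2.resolve_right hxJ
          have hmv : (move (AA I J) x i).1 = flip i x.1 := by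
            unfold move
            split_ifs with h
            · rfl
            · exfalso
              unfold move at hmove
              rw [dif_neg h] at hmove
              exact hxJ hmove
          rw [hmv] at hmove
          have hother : ∀ j ∈ J, j ≠ i → x.1 j = true := by
            intro j hj hji
            have := hmove j hj
            simpa [flip, hji] using this
          have hxi : x.1 i = false := by
            have := hmove i hi
            simpa [flip] using this
          simp only [cyl, Finset.coe_filter, Finset.mem_univ, true_and, Set.mem_ofPred_eq, Finset.mem_union]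
          intro j hj
          by_cases hji : j = i
          · subst hji; simp [hxi]
          · rw [if_neg hji]
            rcases hj with hj | hj
            · exact hxI j hj
            · exact hother j hj hji
        · intro x _ y _ h; exact Subtype.ext h
      rw [card_cyl] at hcard
      exact_mod_cast hcard
    · rw [if_neg hi]
      have hempty : (BB I J).filter (fun x => move (AA I J) x i ∈ (BB I J)ᶜ) = ∅ := by
        rw [Finset.filter_eq_empty_iff]
        intro x hx hmove
        simp only [BB, Finset.mem_filter, Finset.mem_univ, true_and, Finset.mem_compl, not_not] at hx hmove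
        apply hx
        intro j hj
        have hji : j ≠ i := fun h => hi (h ▸ hj)
        have := hmove j hj
        unfold move at this
        split_ifs at this
        · simpa [flip, hji] using this
        · exact this
      rw [hempty]; simp
  have h5 : ∑ i : Fin n, (if i ∈ J then (2 : ℝ) ^ (n - (I ∪ J).card) else 0) =
      (J.card : ℝ) * 2 ^ (n - (I ∪ J).card) := by
    rw [Finset.sum_ite_mem, Finset.univ_inter, Finset.sum_const, nsmul_eq_mul]
  calc (1 / (2 * n) : ℝ) * ∑ i : Fin n, ∑ x ∈ BB I J, (if move (AA I J) x i ∈ (BB I J)ᶜ then (1 : ℝ) else 0)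
      ≤ (1 / (2 * n) : ℝ) * ((J.card : ℝ) * 2 ^ (n - (I ∪ J).card)) := by
        rw [← h5]
        gcongr with i _
        exact h4 i
    _ = _ := by ring

lemma exists_sets (n m : ℕ) (h : 2 * m ≤ n) : ∃ I J : Finset (Fin n), I.card = m ∧ J.card = m ∧
    (I ∪ J).card = 2 * m := by
  classical
  obtain ⟨K, _, hK⟩ := Finset.exists_subset_card_eq (s := (Finset.univ : Finset (Fin n))) (n := 2 * m)
    (by simpa using h)
  obtain ⟨I, hIK, hI⟩ := Finset.exists_subset_card_eq (s := K) (n := m) (by omega)
  refine ⟨I, K \ I, hI, ?_, ?_⟩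
  · rw [Finset.card_sdiff_of_subset hIK]; omega
  · rw [Finset.union_sdiff_of_subset hIK, hK]

/-- If the walk on `AA I J` is mixed at time `t` then `n (2^m - 1) ≤ 2 t m`. -/
lemma mixed_ge (m : ℕ) (hm : 1 ≤ m) (h2m : 2 * m ≤ n) (hI : I.card = m) (hJ : J.card = m)
    (hIJ : (I ∪ J).card = 2 * m) (t : ℕ) (hmix : ∀ x : AA I J, tv (AA I J) t x ≤ 1/4) :
    (n : ℝ) * (2 ^ m - 1) ≤ 2 * t * m := by
  by_contra hcon
  push Not at hcon
  have hn : 0 < n := by omega
  have hn' : (0 : ℝ) < n := by exact_mod_cast hn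
  have hc1 := card_BB I J
  have hc2 := card_compl_BB I J
  rw [hI, hIJ] at hc1
  rw [hJ] at hc2
  have hpow : (2 : ℕ) ^ (n - m) = 2 ^ (n - 2 * m) * 2 ^ m := by
    rw [← pow_add]; congr 1; omega
  have hB1 : ((BB I J).card : ℝ) = 2 ^ (n - 2 * m) * (2 ^ m - 1) := by
    have h1 : ((BB I J).card : ℝ) + 2 ^ (n - 2 * m) = 2 ^ (n - m) := by exact_mod_cast hc1
    have h2 : (2 : ℝ) ^ (n - m) = 2 ^ (n - 2 * m) * 2 ^ m := by exact_mod_cast hpow
    rw [h2] at h1
    linarith
  have hA : ((AA I J).card : ℝ) = (BB I J).card + 2 ^ (n - m) := by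
    have h1 : (BB I J).card + (BB I J)ᶜ.card = (AA I J).card := by
      rw [Finset.card_add_card_compl]; simp
    rw [hc2] at h1
    rw [← h1]; push_cast; ring
  have hL : (0 : ℝ) < 2 ^ (n - 2 * m) := by positivity
  have h2m1 : (1 : ℝ) < 2 ^ m := one_lt_pow₀ (by norm_num) (by omega)
  have hBpos : (0 : ℝ) < (BB I J).card := by
    rw [hB1]; apply mul_pos hL; linarith
  have hflow := flow_bound I J hn
  rw [hJ, hIJ] at hflow
  obtain ⟨x, hx⟩ := bottleneck (AA I J) hn (BB I J) (Finset.card_pos.1 (by exact_mod_cast hBpos))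
    (by
      rw [hA, hB1]
      have h2 : (2 : ℝ) ^ (n - m) = 2 ^ (n - 2 * m) * 2 ^ m := by exact_mod_cast hpow
      rw [h2]
      nlinarith) t _ hflow (by
      rw [hB1]
      have h3 : (t : ℝ) * ((m : ℝ) * 2 ^ (n - 2 * m) / (2 * n)) = 2 ^ (n - 2 * m) * (2 * t * m) / (4 * n) := by
        field_simp
        ring
      rw [h3, div_lt_iff₀ (by positivity)]
      have h4 : (2 : ℝ) ^ (n - 2 * m) * (2 ^ m - 1) / 4 * (4 * n) = 2 ^ (n - 2 * m) * (n * (2 ^ m - 1)) := by ring
      rw [h4]
      exact mul_lt_mul_of_pos_left hcon hL)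
  exact absurd (hmix x) (not_le.2 hx)

lemma exists_q (a : ℝ) : ∃ q : ℕ, 2 ≤ q ∧ a * q < 2 ^ q := by
  have h1 : Filter.Tendsto (fun q : ℕ => (q : ℝ) / 2 ^ q) Filter.atTop (nhds 0) := by
    have := tendsto_pow_const_div_const_pow_of_one_lt 1 (r := (2 : ℝ)) (by norm_num)
    simpa using this
  have h2 := h1.const_mul a
  rw [mul_zero] at h2
  have h3 := (h2.eventually (gt_mem_nhds (show (0:ℝ) < 1 by norm_num))).and
    (Filter.eventually_ge_atTop 2)
  obtain ⟨q, hq, hq2⟩ := h3.exists
  refine ⟨q, hq2, ?_⟩
  rw [← mul_div_assoc, div_lt_one (by positivity)] at hq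
  exact hq

end Example

/-- For every `C > 0` there are `n ≥ 2` and a nonempty monotone `A ⊆ {0,1}^n`, of density at least
`1 / (log n)^2`, whose lazy censored walk has mixing time larger than `C n log n`. -/
theorem result (C : ℝ) (hC : 0 < C) : ∃ n : ℕ, 2 ≤ n ∧ ∃ A : Finset (Fin n → Bool),
    A.Nonempty ∧ IsUpperSet (A : Set (Fin n → Bool)) ∧
      1 / (Real.log n) ^ 2 ≤ (A.card : ℝ) / 2 ^ n ∧
      ENNReal.ofReal (C * n * Real.log n) < tmix A := by
  obtain ⟨q, hq2, hq⟩ := exists_q (16 * C)
  set m := 2 * q with hm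
  set n := ⌈Real.exp (2 ^ q)⌉₊ with hn
  have hqr : (2 : ℝ) ≤ q := by exact_mod_cast hq2
  have h4 : (4 : ℝ) ≤ 2 ^ q := by
    calc (4 : ℝ) = 2 ^ 2 := by norm_num
      _ ≤ 2 ^ q := pow_le_pow_right₀ (by norm_num) hq2
  have hexp : Real.exp (2 ^ q) ≤ n := Nat.le_ceil _
  have hq2q' : 2 * q ≤ 2 ^ q := by
    obtain ⟨p, hp⟩ : ∃ p, q = p + 1 := ⟨q - 1, by omega⟩
    have := Nat.lt_two_pow_self (n := p)
    rw [hp, pow_succ]; omega
  have hq2q : (2 * q : ℝ) ≤ 2 ^ q := by exact_mod_cast hq2q'
  have hbig : (2 * m : ℝ) ≤ n := by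
    refine le_trans ?_ hexp
    have h1 := Real.quadratic_le_exp_of_nonneg (x := (2 : ℝ) ^ q) (by positivity)
    have h2 : ((2 : ℝ) ^ q) ^ 2 ≥ 4 * 2 ^ q := by nlinarith
    rw [hm]; push_cast
    nlinarith
  have hbig' : 2 * m ≤ n := by exact_mod_cast hbig
  have hn2 : 2 ≤ n := by omega
  have hnpos : (0 : ℝ) < n := by
    have : 0 < n := by omega
    exact_mod_cast this
  have hlog1 : (2 : ℝ) ^ q ≤ Real.log n := by
    rw [Real.le_log_iff_exp_le hnpos]; exact hexp
  have hlog2 : Real.log n ≤ 2 ^ q + 1 := by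
    rw [Real.log_le_iff_le_exp hnpos]
    have h1 := (Nat.ceil_lt_add_one (Real.exp_pos ((2 : ℝ) ^ q)).le).le
    rw [← hn] at h1
    refine h1.trans ?_
    rw [Real.exp_add]
    have h2 : (1 : ℝ) ≤ Real.exp (2 ^ q) := Real.one_le_exp (by positivity)
    have h3 : (2 : ℝ) ≤ Real.exp 1 := by
      have := Real.add_one_le_exp (1 : ℝ); linarith
    nlinarith
  obtain ⟨I, J, hI, hJ, hIJ⟩ := exists_sets n m hbig'
  have hcardJ := card_compl_BB I J
  rw [hJ] at hcardJ
  have hAge : 2 ^ (n - m) ≤ (AA I J).card := by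
    have h1 : (BB I J).card + (BB I J)ᶜ.card = (AA I J).card := by
      rw [Finset.card_add_card_compl]; simp
    omega
  refine ⟨n, hn2, AA I J, ?_, AA_upper I J, ?_, ?_⟩
  · rw [← Finset.card_pos]
    exact lt_of_lt_of_le (by positivity) hAge
  · have h1 : (2 : ℝ) ^ (n - m) ≤ (AA I J).card := by exact_mod_cast hAge
    have h2 : (2 : ℝ) ^ n = 2 ^ (n - m) * 2 ^ m := by
      rw [← pow_add]; congr 1; omega
    have h3 : ((2 : ℝ) ^ q) ^ 2 = 2 ^ m := by rw [hm, ← pow_mul, mul_comm]
    calc 1 / (Real.log n) ^ 2 ≤ 1 / ((2 : ℝ) ^ q) ^ 2 := by gcongr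
      _ = 2 ^ (n - m) / 2 ^ n := by
          rw [h3, h2]; field_simp
      _ ≤ (AA I J).card / 2 ^ n := by gcongr
  · have hkey : C * n * Real.log n < (n * (2 ^ m - 1)) / (2 * m) := by
      have hmpos : (0 : ℝ) < 2 * m := by rw [hm]; push_cast; linarith
      rw [lt_div_iff₀ hmpos]
      have h3 : (2 : ℝ) ^ m = ((2 : ℝ) ^ q) ^ 2 := by rw [hm, ← pow_mul, mul_comm]
      have h5 : C * Real.log n * (2 * m) < 2 ^ m - 1 := by
        have h6 : C * Real.log n * (2 * m) ≤ C * (2 ^ q + 1) * (2 * m) := by gcongr
        refine lt_of_le_of_lt h6 ?_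
        rw [h3, hm]
        push_cast
        have h7 : C * (2 ^ q + 1) * (2 * (2 * q)) ≤ C * (2 * 2 ^ q) * (2 * (2 * (q : ℝ))) := by
          have : (2 : ℝ) ^ q + 1 ≤ 2 * 2 ^ q := by linarith
          gcongr
        refine lt_of_le_of_lt h7 ?_
        have h8 : C * (2 * 2 ^ q) * (2 * (2 * (q : ℝ))) = (16 * C * q) * 2 ^ q / 2 := by ring
        rw [h8]
        nlinarith
      calc C * n * Real.log n * (2 * m) = n * (C * Real.log n * (2 * m)) := by ring
        _ < n * (2 ^ m - 1) := mul_lt_mul_of_pos_left h5 hnpos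
    have hlow : ENNReal.ofReal ((n * (2 ^ m - 1)) / (2 * m)) ≤ tmix (AA I J) := by
      unfold tmix
      refine le_iInf₂ fun t ht => ?_
      have h1 := mixed_ge I J m (by omega) hbig' hI hJ hIJ t ht
      rw [← ENNReal.ofReal_natCast]
      apply ENNReal.ofReal_le_ofReal
      have hmpos : (0 : ℝ) < 2 * m := by rw [hm]; push_cast; linarith
      rw [div_le_iff₀ hmpos]
      linarith
    refine lt_of_lt_of_le ?_ hlow
    apply (ENNReal.ofReal_lt_ofReal_iff ?_).2 hkey
    have hmpos : (0 : ℝ) < 2 * m := by rw [hm]; push_cast; linarith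
    have h1 : (1 : ℝ) < 2 ^ m := one_lt_pow₀ (by norm_num) (by omega)
    have : 0 < (2 : ℝ) ^ m - 1 := by linarith
    positivity

end Pool.Agent.Results.MP_52661b_pr.LowDensityCounterexample
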